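import Pool.Agent.Lib.MP_8c80e8_al.Public

open scoped TensorProduct

namespace Pool.Agent.Results.MP_8c80e8_al.DualNumbers

open MP8c80e8

/-- Q1 has a positive answer.  Let `𝔤` be a (nilpotent) Lie algebra over a number field `k`, let `G`
be the unipotent `k`-group with Lie algebra `𝔤` and `G'` the unipotent `k`-group with Lie algebra
`𝔤 ⊗ k[ε]`, regarded as a `k`-Lie algebra.  For all data `D`, `D'` (schemes `V_i`, rational
functions `W_i`) computing the representation zeta functions of `G(𝒪_K)`, `G'(𝒪_K)`, the limits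
`ω = lim s (ζ_top(s) - 1)` exist, are rational, and `ω(G') = (3/2) ω(G)`. -/
theorem result (k 𝔤 : Type) [Field k] [NumberField k] [LieRing 𝔤] [LieAlgebra k 𝔤] {m m' : ℕ}
    (G : UniGroup k 𝔤 m) (G' : UniGroup k (DualNumber k ⊗[k] 𝔤) m')
    (D : RepZetaData G) (D' : RepZetaData G') :
    ∃ ω : ℚ, IsOmega D.W D.χ ω ∧ IsOmega D'.W D'.χ (3 / 2 * ω) :=
  mainPublic k 𝔤 G G' D D'

end Pool.Agent.Results.MP_8c80e8_al.DualNumbers
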